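import Pool.Agent.J4H87.DG.Main

set_option autoImplicit false

/-!
# MP_4fe900_gt: intrinsically n-linked digraphs exist for every n

`result`: for every `n` there is an intrinsically `n`-linked digraph; for instance the symmetric complete digraph `sym N` (two opposite edges between any
two of `N` vertices) is intrinsically `n`-linked as soon as `30 + 4536 n < N`.

Proof: `Pool/Agent/J4H87/DG/Stm.lean` (plan), `Geo`, `Cyc`, `Comb`, `Wind`, `Sep`, `Main`; the parts TOPO, FAC (helper98), CRS (helper57), FREE (helper30).
-/

namespace Pool.Agent.Results.MP_4fe900_gt.EveryN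

open Pool.Agent.J4H87.DG

theorem result :
    (∀ n : ℕ, ∃ D : DiGraph, IntrinsicallyLinked n D) ∧
      ∀ n N : ℕ, 30 + 4536 * n < N → IntrinsicallyLinked n (sym N) :=
  ⟨fun n => ⟨sym (31 + 4536 * n), main n _ (by omega)⟩, main⟩

end Pool.Agent.Results.MP_4fe900_gt.EveryN
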